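import Pool.Agent.helper70.M8.A2
import Pool.Agent.helper70.M8.B
import Pool.Agent.helper70.M10.Defs
import Pool.Agent.helper70.M10.If

set_option autoImplicit false
set_option linter.all false

/-!
# Module M10-I: a certificate gives a cover, main theorem
-/

open MvPolynomial Set Filter Topology

namespace Oct.N

open Oct Oct.N.If

namespace IMod

theorem cell_inv_inv (c : Cell) : c.inv.inv = c := by
  cases c <;> simp [Cell.inv]

theorem valid_inv {ct : Cert} {c : Cell} (hc : ct.Valid c) : ct.Valid c.inv := by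
  cases c <;> exact hc

/-- the cells form a finite set -/
theorem valid_finite (ct : Cert) : {c : Cell | ct.Valid c}.Finite := by
  classical
  have h1 : ({c : Cell | ct.Valid c}) ⊆
      (⋃ l : Bool, ⋃ i ∈ Set.Iio ct.n, (fun j => Cell.box l i j) '' Set.Iio (ct.col i).bx.length) ∪
      (⋃ l : Bool, (fun i => Cell.top l i) '' Set.Iio ct.n) ∪
      (⋃ l : Bool, (fun i => Cell.bot l i) '' Set.Iio ct.n) ∪
      (Set.range fun l : Bool => Cell.pole l) := by
    intro c hc
    cases c with
    | box l i j =>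
      refine Or.inl (Or.inl (Or.inl ?_))
      rw [Set.mem_iUnion]
      refine ⟨l, ?_⟩
      rw [Set.mem_iUnion₂]
      exact ⟨i, hc.1, j, hc.2, rfl⟩
    | top l i =>
      refine Or.inl (Or.inl (Or.inr ?_))
      rw [Set.mem_iUnion]
      exact ⟨l, i, hc, rfl⟩
    | bot l i =>
      refine Or.inl (Or.inr ?_)
      rw [Set.mem_iUnion]
      exact ⟨l, i, hc, rfl⟩
    | pole l => exact Or.inr ⟨l, rfl⟩
  refine Set.Finite.subset ?_ h1
  refine Set.Finite.union (Set.Finite.union (Set.Finite.union ?_ ?_) ?_) ?_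
  · exact Set.finite_iUnion fun l => (Set.finite_Iio _).biUnion fun i _ =>
      (Set.finite_Iio _).image _
  · exact Set.finite_iUnion fun l => (Set.finite_Iio _).image _
  · exact Set.finite_iUnion fun l => (Set.finite_Iio _).image _
  · exact Set.finite_range _

theorem eval_smul {F : MvPolynomial (Fin 3) ℝ} {d : ℕ} (hF : F.IsHomogeneous d) (r : ℝ)
    (x : Fin 3 → ℝ) : eval (r • x) F = r ^ d * eval x F := by
  rw [eval_eq', eval_eq', Finset.mul_sum]
  refine Finset.sum_congr rfl fun k hk => ?_
  have h1 := hF (mem_support_iff.1 hk)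
  rw [Finsupp.weight_apply] at h1
  simp only [Pi.one_apply, smul_eq_mul, mul_one] at h1
  rw [Finsupp.sum_fintype _ _ (fun _ => rfl)] at h1
  simp only [Pi.smul_apply, smul_eq_mul, mul_pow, Finset.prod_mul_distrib]
  rw [Finset.prod_pow_eq_pow_sum, h1]
  ring

theorem fV_neg {F : MvPolynomial (Fin 3) ℝ} {d : ℕ} (hF : F.IsHomogeneous d) (hd : Even d)
    (x : V3) : fV F (negV x) = fV F x := by
  show eval (-x.1) F = eval x.1 F
  have h := eval_smul hF (-1) x.1
  rw [neg_one_smul, hd.neg_one_pow, one_mul] at h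
  exact h

theorem has_mul {s : S3} {c y : ℝ} (hc : 0 < c) : s.Has (c * y) ↔ s.Has y := by
  cases s
  · exact mul_pos_iff_of_pos_left hc
  · refine ⟨fun h => ?_, fun h => mul_neg_of_pos_of_neg hc h⟩
    show y < 0
    have h' : c * y < 0 := h
    by_contra hy
    exact absurd h' (not_lt.2 (mul_nonneg hc.le (not_lt.1 hy)))
  · show c * y = 0 ↔ y = 0
    simp [hc.ne']

theorem fV_mul {F : MvPolynomial (Fin 3) ℝ} {d : ℕ} (hF : F.IsHomogeneous d) (x : V3) (r : ℝ)
    (hr : 0 < r) (s : S3) : s.Has (fV F (mulV r hr x)) ↔ s.Has (fV F x) := by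
  have h : fV F (mulV r hr x) = r ^ d * fV F x := eval_smul hF r x.1
  rw [h]
  exact has_mul (pow_pos hr d)

theorem fV_cont (F : MvPolynomial (Fin 3) ℝ) : Continuous (fV F) :=
  (MvPolynomial.continuous_eval F).comp continuous_subtype_val

theorem up_neg' (par : List ℕ) (l : ℤ) : up par (-l) = -up par l := by
  rcases l with (_ | n) | n
  · rfl
  · rfl
  · show up par ((n : ℤ) + 1) = - -((par.getD n 0 : ℕ) : ℤ)
    rw [neg_neg]
    rfl

theorem up_range {par : List ℕ} (ht : ∀ i < par.length, par.getD i 0 ≤ i) {l : ℤ}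
    (hl : l.natAbs ≤ par.length) : (up par l).natAbs ≤ par.length := by
  rcases l with (_ | n) | n
  · simp [up]
  · have h1 : n + 1 ≤ par.length := hl
    have h2 := ht n (by omega)
    show (((par.getD n 0 : ℕ) : ℤ)).natAbs ≤ _
    omega
  · have h1 : n + 1 ≤ par.length := hl
    have h2 := ht n (by omega)
    show (-((par.getD n 0 : ℕ) : ℤ)).natAbs ≤ _
    omega

theorem ls_natAbs (l : Bool) (i : ℤ) : (ls l i).natAbs = i.natAbs := by
  cases l <;> simp [ls]

theorem ls_not (l : Bool) (i : ℤ) : ls (!l) i = -ls l i := by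
  cases l <;> simp [ls]

theorem ls_up (par : List ℕ) (l : Bool) (i : ℤ) : ls l (up par i) = up par (ls l i) := by
  cases l
  · rfl
  · simp [ls, up_neg']

theorem ls_ne (l : Bool) {i : ℤ} (hi : i ≠ 0) : ls l i ≠ 0 := by
  cases l <;> simpa [ls] using hi

theorem of_ne_z (b : Bool) : S3.of b ≠ S3.z := by
  cases b <;> simp [S3.of]

theorem box_mem {ct : Cert} {i j : ℕ} (hi : i < ct.n) (hj : j < (ct.col i).bx.length) :
    ct.col i ∈ ct.cols ∧ (ct.col i).box j ∈ (ct.col i).bx := by
  constructor
  · unfold Cert.col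
    have h1 : i < ct.cols.length := hi
    rw [List.getD_eq_getElem _ _ h1]
    exact List.getElem_mem h1
  · unfold Column.box
    rw [List.getD_eq_getElem _ _ hj]
    exact List.getElem_mem hj

/-- the cover given by a certificate -/
theorem cover {ct : Cert} (h : Comb ct) {F : MvPolynomial (Fin 3) ℝ} {d : ℕ}
    (hF : F.IsHomogeneous d) (hd : Even d) (ha : AnaOK F ct.sp ct.cols) :
    Cover (fV F) ct.par (ι := {c : Cell // ct.Valid c}) (fun c => ct.K c.1)
      (fun c s => ct.clab c.1 s) (fun c s => ct.crk c.1 s)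
      (fun c => ⟨c.1.inv, valid_inv c.2⟩) where
  m_pos := h.pos_m
  tree := h.tree
  cont := fV_cont F
  fneg := fV_neg hF hd
  fmul := fun x r hr s => fV_mul hF x r hr s
  closed := fun c => K_closed h c.1 c.2
  cone := fun c x r hr hx => K_cone h c.1 x r hr hx
  conn := fun c => K_conn h c.1 c.2
  part := fun c s => cell_part h hF hd ha c.1 c.2 s
  cover := fun x => by
    obtain ⟨c, hc, hx⟩ := K_cover h x
    exact ⟨⟨c, hc⟩, hx⟩
  glue := fun c c' s x hx hx' hs => cell_glue h hF hd ha c.1 c'.1 c.2 c'.2 s x hx hx' hs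
  rank := fun c s hne => by
    rcases cell_rank h hF hd ha c.1 c.2 s ((cell_act h hF hd ha c.1 c.2 s).1 hne) with
      h1 | ⟨c', hc', h2, h3⟩
    · exact Or.inl h1
    · exact Or.inr ⟨⟨c', hc'⟩, h2, h3⟩
  root := fun c c' s s' hne hne' h1 h2 h3 h4 => by
    obtain ⟨h5, h6⟩ := h.root c.1 c'.1 s s' c.2 c'.2
      ((cell_act h hF hd ha c.1 c.2 s).1 hne) ((cell_act h hF hd ha c'.1 c'.2 s').1 hne')
      h1 h2 h3 h4
    exact ⟨Subtype.ext h5, h6⟩
  range := fun c s hne => by
    have hact := (cell_act h hF hd ha c.1 c.2 s).1 hne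
    obtain ⟨c, hc⟩ := c
    cases c with
    | box l i j =>
      obtain ⟨hcol, hbox⟩ := box_mem hc.1 hc.2
      obtain ⟨h1, h2⟩ := h.lab0 _ hcol _ hbox
      have hact' : ((ct.col i).box j).ty = 0 → s = S3.of ((ct.col i).box j).sl := hact
      show (ls l (ct.bl ((ct.col i).box j) s)).natAbs ≤ ct.par.length ∧
        (s = S3.z → ls l (ct.bl ((ct.col i).box j) s) ≠ 0)
      rw [ls_natAbs]
      have h3 : ∀ s' : Bool, (regLab ct.par ct.s0 ((ct.col i).box j) s').natAbs ≤
          ct.par.length := by
        intro s'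
        unfold regLab
        split_ifs
        · exact h1
        · exact h1
        · exact up_range h.tree h1
      cases s with
      | p => exact ⟨h3 true, fun h => by cases h⟩
      | n => exact ⟨h3 false, fun h => by cases h⟩
      | z =>
        refine ⟨h1, fun _ => ls_ne l ?_⟩
        apply h2
        intro h0
        exact of_ne_z _ (hact' h0).symm
    | top l i =>
      have hact' : s = S3.of ct.sp := hact
      refine ⟨?_, fun hz => absurd (hact'.symm.trans hz) (of_ne_z _)⟩
      show (ls l ct.pl).natAbs ≤ _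
      rw [ls_natAbs]
      exact h.labp
    | bot l i =>
      have hact' : s = S3.of ct.sp := hact
      refine ⟨?_, fun hz => absurd (hact'.symm.trans hz) (of_ne_z _)⟩
      show (ls l (-ct.pl)).natAbs ≤ _
      rw [ls_natAbs, Int.natAbs_neg]
      exact h.labp
    | pole l =>
      have hact' : s = S3.of ct.sp := hact
      refine ⟨?_, fun hz => absurd (hact'.symm.trans hz) (of_ne_z _)⟩
      show (ls l ct.pl).natAbs ≤ _
      rw [ls_natAbs]
      exact h.labp
  oval := fun c hne => by
    have hact := (cell_act h hF hd ha c.1 c.2 S3.z).1 hne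
    have hne' : ∀ s, ct.Act c.1 s → (ct.K c.1 ∩ {x | S3.Has s (fV F x)}).Nonempty :=
      fun s hs => (cell_act h hF hd ha c.1 c.2 s).2 hs
    obtain ⟨c, hc⟩ := c
    cases c with
    | box l i j =>
      have hact' : ((ct.col i).box j).ty = 0 → S3.z = S3.of ((ct.col i).box j).sl := hact
      have hty : ((ct.col i).box j).ty ≠ 0 := fun h0 => of_ne_z _ (hact' h0).symm
      refine ⟨hne' _ (fun h0 => absurd h0 hty), hne' _ (fun h0 => absurd h0 hty), ?_⟩
      show (ls l (regLab ct.par ct.s0 ((ct.col i).box j) true) = ls l ((ct.col i).box j).lab ∧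
        ls l (regLab ct.par ct.s0 ((ct.col i).box j) false) =
          up ct.par (ls l ((ct.col i).box j).lab)) ∨
        (ls l (regLab ct.par ct.s0 ((ct.col i).box j) false) = ls l ((ct.col i).box j).lab ∧
        ls l (regLab ct.par ct.s0 ((ct.col i).box j) true) =
          up ct.par (ls l ((ct.col i).box j).lab))
      unfold regLab
      rw [if_neg hty, if_neg hty, ← ls_up]
      cases sgnR ct.par ct.s0 ((ct.col i).box j).lab
      · right
        simp
      · left
        simp
    | top l i => exact absurd (show S3.z = S3.of ct.sp from hact).symm (of_ne_z _)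
    | bot l i => exact absurd (show S3.z = S3.of ct.sp from hact).symm (of_ne_z _)
    | pole l => exact absurd (show S3.z = S3.of ct.sp from hact).symm (of_ne_z _)
  all := fun o ho hom => by
    obtain ⟨c, hc, hact, hlab⟩ := h.all o ho hom
    exact ⟨⟨c, hc⟩, hlab, (cell_act h hF hd ha c hc S3.z).2 hact⟩
  invK := fun c x => by
    obtain ⟨c, hc⟩ := c
    cases c with
    | box l i j => exact K_inv_box h l i j x
    | top l i => exact K_inv_top h l i x
    | bot l i => exact K_inv_bot h l i x
    | pole l => exact K_inv_pole h l x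
  invlab := fun c s => by
    obtain ⟨c, hc⟩ := c
    cases c with
    | box l i j => exact ls_not l _
    | top l i => exact ls_not l _
    | bot l i => exact ls_not l _
    | pole l => exact ls_not l _

end IMod

theorem main {ct : Cert} (h : Comb ct) {F : MvPolynomial (Fin 3) ℝ} {d : ℕ}
    (hF : F.IsHomogeneous d) (hd : Even d) (ha : AnaOK F ct.sp ct.cols) :
    HasArrangement F ct.par.length (nestOf ct.par) := by
  haveI : Finite {c : Cell // ct.Valid c} := (IMod.valid_finite ct).to_subtype
  obtain ⟨Ov, Dd, hL⟩ := cover_lifts (IMod.cover h hF hd ha)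
  exact arr_of_lifts hF hL

end Oct.N
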