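import Pool.Agent.helper70.M10.Defs
import Pool.Agent.helper70.M10.ChkC
import Pool.Agent.helper70.M10.If

set_option autoImplicit false
set_option linter.all false

/-!
# [M10-P6] the combinatorial conditions of a certificate
-/

open Set

namespace Oct.N

open Oct Oct.N.If

private theorem ltZ_iff' (a b : ℤ) : ltZ a b = true ↔ a < b := by
  cases a <;> cases b <;> simp only [ltZ, Nat.blt_eq, Int.ofNat_eq_natCast, Bool.false_eq_true,
    false_iff, true_iff] <;> omega

private theorem leZ_iff' (a b : ℤ) : leZ a b = true ↔ a ≤ b := by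
  cases a <;> cases b <;> simp only [leZ, Nat.ble_eq, Int.ofNat_eq_natCast, Bool.false_eq_true,
    false_iff, true_iff] <;> omega

private theorem eqZ_iff' (a b : ℤ) : eqZ a b = true ↔ a = b := by
  cases a <;> cases b <;> simp only [eqZ, Nat.beq_eq, Int.ofNat_eq_natCast, Bool.false_eq_true,
    false_iff] <;> omega

private theorem chkAll_spec {g : Gl} {p : Column} {L : List Column} (h : chkAll g p L = true) {i : ℕ}
    (hi : i + 1 < L.length) :
    chk3 g ((p :: L).getD i col0) (L.getD i col0) (L.getD (i + 1) col0) = true := by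
  induction L generalizing p i with
  | nil => simp at hi
  | cons c L ih =>
    cases L with
    | nil => simp at hi
    | cons q L =>
      simp only [chkAll, Bool.and_eq_true] at h
      cases i with
      | zero => simpa using h.1
      | succ i =>
        have := ih h.2 (i := i) (by simpa using hi)
        simpa using this

theorem chkAll_append {g : Gl} {p h : Column} {A B : List Column} (hA : A ≠ [])
    (h1 : chkAll g p (A ++ [h]) = true) (h2 : chkAll g (A.getLast hA) (h :: B) = true) :
    chkAll g p (A ++ h :: B) = true := by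
  induction A generalizing p with
  | nil => exact absurd rfl hA
  | cons a A ih =>
    cases A with
    | nil =>
      simp only [List.cons_append, List.nil_append, chkAll, Bool.and_eq_true,
        List.getLast_singleton] at h1 h2 ⊢
      exact ⟨h1.1, h2⟩
    | cons b A =>
      simp only [List.cons_append, chkAll, Bool.and_eq_true] at h1 ⊢
      refine ⟨h1.1, ?_⟩
      have := ih (p := a) (by simp) (by simpa using h1.2) (by simpa using h2)
      simpa using this

theorem rootsL_append (g : Gl) (i : ℕ) (A B : List Column) :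
    rootsL g i (A ++ B) = rootsL g i A ++ rootsL g (i + A.length) B := by
  induction A generalizing i with
  | nil => simp [rootsL]
  | cons a A ih =>
    simp only [List.cons_append, rootsL, ih, List.append_assoc, List.length_cons]
    rw [show i + 1 + A.length = i + (A.length + 1) by ring]

namespace P6

variable {g : Gl} {L : List Column}

/-- scaling of the right side -/
def mR (g : Gl) (L : List Column) (i : ℕ) : ℤ :=
  if i + 1 < (certOf g L).n then (((certOf g L).col i).scal ((certOf g L).col (i + 1))).1 else
    (((certOf g L).col i).scalS ((certOf g L).col 0)).1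

/-- scaling of the left side -/
def mL (g : Gl) (L : List Column) (i : ℕ) : ℤ :=
  if i = 0 then (((certOf g L).col ((certOf g L).n - 1)).scalS ((certOf g L).col i)).2 else
    (((certOf g L).col (i - 1)).scal ((certOf g L).col i)).2

theorem eR_mR (i : ℕ) : (certOf g L).eR i =
    edgeOf g.par g.s0 ((certOf g L).col i) ((certOf g L).col i).b (mR g L i) true := by
  unfold Cert.eR mR
  split_ifs <;> rfl

theorem eL_mL (i : ℕ) : (certOf g L).eL i =
    edgeOf g.par g.s0 ((certOf g L).col i) ((certOf g L).col i).a (mL g L i) false := by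
  cases i with
  | zero => simp only [Cert.eL, mL, if_true]; rfl
  | succ i => simp only [Cert.eL, mL, Nat.succ_ne_zero, if_false, Nat.add_sub_cancel]; rfl

theorem col_mem {i : ℕ} (hi : i < L.length) : (certOf g L).col i ∈ L := by
  have : (certOf g L).col i = L[i] := List.getD_eq_getElem _ _ hi
  rw [this]
  exact List.getElem_mem hi

/-- all the conditions for the column `i` -/
theorem cond_i (hL : 3 ≤ L.length) (hg : glOK g = true)
    (hcol : ∀ c ∈ L, colC g c = true)
    (hlab : ∀ c ∈ L, ∀ b ∈ c.bx, b.lab.natAbs ≤ g.par.length)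
    (hfirst : chkFirst g (L.getD (L.length - 1) col0) (L.getD 0 col0) (L.getD 1 col0) = true)
    (hlast : chkLast g (L.getD (L.length - 2) col0) (L.getD (L.length - 1) col0)
      (L.getD 0 col0) = true)
    (hall : chkAll g (L.getD 0 col0) L.tail = true) {i : ℕ} (hi : i < L.length) :
    (0 < mR g L i ∧ 0 < mL g L i) ∧
    (if i + 1 < L.length then 0 < mL g L (i + 1) else 0 < mL g L 0) ∧
    (if i = 0 then 0 < mR g L (L.length - 1) else 0 < mR g L (i - 1)) ∧
    glueF g ((certOf g L).eR i).segs ((certOf g L).eN i).segs = true ∧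
    rkCol ((certOf g L).col i).rb0 ((certOf g L).col i).rb1 ((certOf g L).col i).rt0
      ((certOf g L).col i).rt1 none ((certOf g L).col i).bx
      (segsF g ((certOf g L).col i) (mR g L i) true)
      (segsF g ((certOf g L).col i) (mL g L i) false)
      ((certOf g L).eN i).segs ((certOf g L).eP i).segs = true ∧
    (i + 1 < L.length →
      ((((certOf g L).col i).scal ((certOf g L).col (i + 1))).1 *
          ((certOf g L).col i).ch.vxZ ((certOf g L).col i).b =
        (((certOf g L).col i).scal ((certOf g L).col (i + 1))).2 *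
          ((certOf g L).col (i + 1)).ch.vxZ ((certOf g L).col (i + 1)).a ∧
      (((certOf g L).col i).scal ((certOf g L).col (i + 1))).1 *
          ((certOf g L).col i).ch.vyZ ((certOf g L).col i).b =
        (((certOf g L).col i).scal ((certOf g L).col (i + 1))).2 *
          ((certOf g L).col (i + 1)).ch.vyZ ((certOf g L).col (i + 1)).a)) := by
  have hn : (certOf g L).n = L.length := rfl
  have hc : ∀ j, (certOf g L).col j = L.getD j col0 := fun j => rfl
  have hsR : ∀ {j : ℕ} (_ : j < L.length) (m : ℤ),
      segsF g ((certOf g L).col j) m true =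
        (edgeOf g.par g.s0 ((certOf g L).col j) ((certOf g L).col j).b m true).segs :=
    fun {j} hj m => segsF_eq hg (hlab _ (col_mem hj)) m true
  have hsL : ∀ {j : ℕ} (_ : j < L.length) (m : ℤ),
      segsF g ((certOf g L).col j) m false =
        (edgeOf g.par g.s0 ((certOf g L).col j) ((certOf g L).col j).a m false).segs :=
    fun {j} hj m => segsF_eq hg (hlab _ (col_mem hj)) m false
  -- cases
  rcases Nat.eq_zero_or_pos i with h0 | h0
  · subst h0
    have hmR : mR g L 0 = (((certOf g L).col 0).scal ((certOf g L).col 1)).1 := by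
      simp only [mR, hn, zero_add]; rw [if_pos (by omega)]
    have hmL : mL g L 0 = (((certOf g L).col (L.length - 1)).scalS ((certOf g L).col 0)).2 := by
      simp only [mL, if_true, hn]
    have hmL1 : mL g L 1 = (((certOf g L).col 0).scal ((certOf g L).col 1)).2 := by
      simp only [mL, one_ne_zero, if_false, Nat.sub_self]
    have hmRl : mR g L (L.length - 1) =
        (((certOf g L).col (L.length - 1)).scalS ((certOf g L).col 0)).1 := by
      simp only [mR, hn]; rw [if_neg (by omega)]
    have heN : ((certOf g L).eN 0).segs = segsF g ((certOf g L).col 1)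
        (((certOf g L).col 0).scal ((certOf g L).col 1)).2 false := by
      rw [Cert.eN, if_pos (by rw [hn]; omega), zero_add, eL_mL, hmL1, hsL (by omega)]
    have heR : ((certOf g L).eR 0).segs = segsF g ((certOf g L).col 0)
        (((certOf g L).col 0).scal ((certOf g L).col 1)).1 true := by
      rw [eR_mR, hmR, hsR (by omega)]
    have heP : ((certOf g L).eP 0).segs = flipF (segsF g ((certOf g L).col (L.length - 1))
        (((certOf g L).col (L.length - 1)).scalS ((certOf g L).col 0)).1 true) := by
      rw [hsR (by omega), ← hmRl, ← eR_mR]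
      rfl
    simp only [chkFirst, chainF, Bool.and_eq_true, decide_eq_true_eq, ltZ_iff'] at hfirst
    obtain ⟨⟨⟨⟨⟨⟨⟨⟨⟨ha, hb⟩, hs1⟩, hs2⟩, hgl⟩, -⟩, -⟩, hs1'⟩, hs2'⟩, hrk⟩ := hfirst
    refine ⟨⟨?_, ?_⟩, ?_, ?_, ?_, ?_, ?_⟩
    · rw [hmR]; exact hs1
    · rw [hmL]; exact hs2'
    · rw [if_pos (by omega), zero_add, hmL1]; exact hs2
    · rw [if_pos rfl, hmRl]; exact hs1'
    · rw [heR, heN]; exact hgl
    · rw [heN, heP, hmR, hmL]; exact hrk
    · intro _; exact ⟨ha, hb⟩
  · rcases Nat.lt_or_ge (i + 1) L.length with h1 | h1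
    · -- middle
      obtain ⟨k, rfl⟩ : ∃ k, i = k + 1 := ⟨i - 1, by omega⟩
      have hmR : mR g L (k + 1) =
          (((certOf g L).col (k + 1)).scal ((certOf g L).col (k + 2))).1 := by
        simp only [mR, hn]; rw [if_pos (by omega)]
      have hmL : mL g L (k + 1) =
          (((certOf g L).col k).scal ((certOf g L).col (k + 1))).2 := by
        simp only [mL, Nat.succ_ne_zero, if_false, Nat.add_sub_cancel]
      have hmL1 : mL g L (k + 2) =
          (((certOf g L).col (k + 1)).scal ((certOf g L).col (k + 2))).2 := by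
        simp only [mL, Nat.succ_ne_zero, if_false]
        rfl
      have hmR1 : mR g L k =
          (((certOf g L).col k).scal ((certOf g L).col (k + 1))).1 := by
        simp only [mR, hn]; rw [if_pos (by omega)]
      have heN : ((certOf g L).eN (k + 1)).segs =
          segsF g ((certOf g L).col (k + 2))
          (((certOf g L).col (k + 1)).scal ((certOf g L).col (k + 2))).2 false := by
        rw [Cert.eN, if_pos (by rw [hn]; omega), eL_mL, hmL1, hsL (by omega)]
      have heR : ((certOf g L).eR (k + 1)).segs =
          segsF g ((certOf g L).col (k + 1))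
          (((certOf g L).col (k + 1)).scal ((certOf g L).col (k + 2))).1 true := by
        rw [eR_mR, hmR, hsR (by omega)]
      have heP : ((certOf g L).eP (k + 1)).segs =
          segsF g ((certOf g L).col k)
          (((certOf g L).col k).scal ((certOf g L).col (k + 1))).1 true := by
        rw [hsR (by omega), ← hmR1, ← eR_mR]
        rfl
      have hch := chkAll_spec hall (i := k) (by rw [List.length_tail]; omega)
      have e1 : (L.getD 0 col0 :: L.tail).getD k col0 = L.getD k col0 := by
        cases L with
        | nil => simp at hi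
        | cons a L => simp
      have e2 : ∀ j, L.tail.getD j col0 = L.getD (j + 1) col0 := by
        intro j
        cases L with
        | nil => simp
        | cons a L => simp
      rw [e1, e2, e2] at hch
      simp only [chk3, chainF, Bool.and_eq_true, decide_eq_true_eq, ltZ_iff'] at hch
      obtain ⟨⟨⟨⟨⟨⟨⟨ha, hb⟩, hs1⟩, hs2⟩, hgl⟩, hs1'⟩, hs2'⟩, hrk⟩ := hch
      refine ⟨⟨?_, ?_⟩, ?_, ?_, ?_, ?_, ?_⟩
      · rw [hmR]; exact hs1
      · rw [hmL]; exact hs2'
      · rw [if_pos (by omega), hmL1]; exact hs2
      · rw [if_neg (by omega), Nat.add_sub_cancel, hmR1]; exact hs1'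
      · rw [heR, heN]; exact hgl
      · rw [heN, heP, hmR, hmL]; exact hrk
      · intro _; exact ⟨ha, hb⟩
    · -- last
      have hil : i = L.length - 1 := by omega
      obtain ⟨k, rfl⟩ : ∃ k, i = k + 1 := ⟨i - 1, by omega⟩
      have hk : L.length - 2 = k := by omega
      rw [hk, ← hil] at hlast
      have hmR : mR g L (k + 1) =
          (((certOf g L).col (k + 1)).scalS ((certOf g L).col 0)).1 := by
        simp only [mR, hn]; rw [if_neg (by omega)]
      have hmL : mL g L (k + 1) =
          (((certOf g L).col k).scal ((certOf g L).col (k + 1))).2 := by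
        simp only [mL, Nat.succ_ne_zero, if_false, Nat.add_sub_cancel]
      have hmL1 : mL g L 0 =
          (((certOf g L).col (k + 1)).scalS ((certOf g L).col 0)).2 := by
        simp only [mL, if_true, hn]
        rw [← hil]
      have hmR1 : mR g L k =
          (((certOf g L).col k).scal ((certOf g L).col (k + 1))).1 := by
        simp only [mR, hn]; rw [if_pos (by omega)]
      have heN : ((certOf g L).eN (k + 1)).segs =
          flipF (segsF g ((certOf g L).col 0)
          (((certOf g L).col (k + 1)).scalS ((certOf g L).col 0)).2 false) := by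
        rw [Cert.eN, if_neg (by rw [hn]; omega), eL_mL, hmL1, hsL (by omega)]
        rfl
      have heR : ((certOf g L).eR (k + 1)).segs =
          segsF g ((certOf g L).col (k + 1))
          (((certOf g L).col (k + 1)).scalS ((certOf g L).col 0)).1 true := by
        rw [eR_mR, hmR, hsR (by omega)]
      have heP : ((certOf g L).eP (k + 1)).segs =
          segsF g ((certOf g L).col k)
          (((certOf g L).col k).scal ((certOf g L).col (k + 1))).1 true := by
        rw [hsR (by omega), ← hmR1, ← eR_mR]
        rfl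
      simp only [chkLast, Bool.and_eq_true, decide_eq_true_eq, ltZ_iff'] at hlast
      obtain ⟨⟨⟨⟨⟨⟨⟨hgl, -⟩, -⟩, hs1⟩, hs2⟩, hs1'⟩, hs2'⟩, hrk⟩ := hlast
      refine ⟨⟨?_, ?_⟩, ?_, ?_, ?_, ?_, ?_⟩
      · rw [hmR]; exact hs1
      · rw [hmL]; exact hs2'
      · rw [if_neg (by omega), hmL1]; exact hs2
      · rw [if_neg (by omega), Nat.add_sub_cancel, hmR1]; exact hs1'
      · rw [heR, heN]; exact hgl
      · rw [heN, heP, hmR, hmL]; exact hrk
      · intro h; omega

theorem bl_of (b : Box) (s : Bool) :
    (certOf g L).bl b (S3.of s) = regLab g.par g.s0 b s := by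
  cases s <;> rfl

theorem nat_beq0 {a : ℕ} : Nat.beq a 0 = true ↔ a = 0 := by
  rw [Nat.beq_eq]

theorem nat_blt {a b : ℕ} : Nat.blt a b = true ↔ a < b := by
  unfold Nat.blt
  rw [Nat.ble_eq]
  rfl

/-- what we need about a side of a column -/
def Fit (E : Edge) : Prop :=
  E.segs ≠ [] ∧ E.lo = loE E.segs ∧ E.hi = hiE E.segs ∧ ∀ e ∈ E.segs, e.lo < e.hi

theorem edge_fit {c : Column} (hne : c.bx ≠ []) (hb : ∀ b ∈ c.bx, 0 < b.s ∧ 0 < b.al)
    (par : List ℕ) (s0 : Bool) (t : ℤ) {m : ℤ} (hm : 0 < m) (right : Bool) :
    Fit (edgeOf par s0 c t m right) := by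
  have hlen : 0 < c.bx.length := List.length_pos_iff.2 hne
  have h0 : c.bx.head? = some c.fb := by
    cases hc : c.bx with
    | nil => exact absurd hc hne
    | cons a l => simp [Column.fb, Column.box, hc]
  have hl : c.bx.getLast? = some c.lb := by
    rw [List.getLast?_eq_getElem?, List.getElem?_eq_getElem (by omega)]
    exact congrArg some (List.getD_eq_getElem _ _ (by omega)).symm
  refine ⟨?_, ?_, ?_, ?_⟩
  · show c.bx.map _ ≠ []
    simpa using hne
  · show m * c.fb.lvZ c.fb.lo t = loE (c.bx.map (segOf par s0 t m right))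
    unfold loE
    rw [List.head?_map, h0]
    rfl
  · show m * c.lb.lvZ c.lb.hi t = hiE (c.bx.map (segOf par s0 t m right))
    unfold hiE
    rw [List.getLast?_map, hl]
    rfl
  · intro e he
    obtain ⟨b, hbm, rfl⟩ := List.mem_map.1 he
    obtain ⟨h1, h2⟩ := hb b hbm
    show m * b.lvZ b.lo t < m * b.lvZ b.hi t
    refine mul_lt_mul_of_pos_left ?_ hm
    show b.al * b.lo + evI b.be t < b.al * b.hi + evI b.be t
    have h3 : b.lo < b.hi := by
      show b.c - b.s < b.c + b.s
      omega
    have := mul_lt_mul_of_pos_left h3 h2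
    omega

theorem flip_fit {E : Edge} (h : Fit E) : Fit E.flip := by
  obtain ⟨h1, h2, h3, h4⟩ := h
  refine ⟨?_, ?_, ?_, ?_⟩
  · simpa [Edge.flip] using h1
  · show -E.hi = loE (E.segs.map Seg.flip).reverse
    rw [h3]
    unfold loE hiE
    rw [List.head?_reverse, List.getLast?_map]
    cases E.segs.getLast? with
    | none => rfl
    | some e => rfl
  · show -E.lo = hiE (E.segs.map Seg.flip).reverse
    rw [h2]
    unfold loE hiE
    rw [List.getLast?_reverse, List.head?_map]
    cases E.segs.head? with
    | none => rfl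
    | some e => rfl
  · intro e he
    have he' : e ∈ (E.segs.map Seg.flip).reverse := he
    obtain ⟨e', h5, rfl⟩ := List.mem_map.1 (List.mem_reverse.1 he')
    show -e'.hi < -e'.lo
    have := h4 e' h5
    omega

end P6

open P6 in
theorem comb_sound {g : Gl} {L : List Column} (hL : 3 ≤ L.length) (hg : glOK g = true)
    (hcol : ∀ c ∈ L, colC g c = true)
    (hfirst : chkFirst g (L.getD (L.length - 1) col0) (L.getD 0 col0) (L.getD 1 col0) = true)
    (hlast : chkLast g (L.getD (L.length - 2) col0) (L.getD (L.length - 1) col0)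
      (L.getD 0 col0) = true)
    (hall : chkAll g (L.getD 0 col0) L.tail = true)
    (hroots : rootsOK g (rootsP g ++ rootsL g 0 L) = true) (hpole : poleF g L = true) :
    Comb (certOf g L) := by
  have hn : (certOf g L).n = L.length := rfl
  have hm : (certOf g L).m = g.par.length := rfl
  have hlab : ∀ c ∈ L, ∀ b ∈ c.bx, b.lab.natAbs ≤ g.par.length :=
    fun c hc b hb => ((colC_spec hg (hcol c hc)).2.1 b hb).2.2.1
  have hgl := hg
  simp only [glOK, Bool.and_eq_true, beq_iff_eq, nat_blt, decide_eq_true_eq, List.all_eq_true,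
    List.mem_range, Nat.ble_eq] at hgl
  obtain ⟨⟨⟨⟨⟨hsp, hpar⟩, hpl⟩, _⟩, htree⟩, _⟩ := hgl
  have hsp' : (certOf g L).sp = g.sp := hsp.symm
  have hcm : ∀ i < L.length, (certOf g L).col i ∈ L := fun i hi => col_mem hi
  have hspec : ∀ i < L.length, _ := fun i hi => colC_spec hg (hcol _ (hcm i hi))
  have hcond : ∀ i < L.length, _ := fun i (hi : i < L.length) =>
    cond_i hL hg hcol hlab hfirst hlast hall hi
  -- edges
  have hbs : ∀ i < L.length, ∀ b ∈ ((certOf g L).col i).bx, 0 < b.s ∧ 0 < b.al :=
    fun i hi b hb => ⟨((hspec i hi).2.1 b hb).1, ((hspec i hi).2.1 b hb).2.1⟩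
  have fitR : ∀ i < L.length, Fit ((certOf g L).eR i) := by
    intro i hi
    rw [eR_mR]
    exact edge_fit (hspec i hi).1.2.2.2 (hbs i hi) _ _ _ (hcond i hi).1.1 _
  have fitL : ∀ i < L.length, Fit ((certOf g L).eL i) := by
    intro i hi
    rw [eL_mL]
    exact edge_fit (hspec i hi).1.2.2.2 (hbs i hi) _ _ _ (hcond i hi).1.2 _
  have fitN : ∀ i < L.length, Fit ((certOf g L).eN i) := by
    intro i hi
    rw [Cert.eN]
    split_ifs with h
    · exact fitL _ h
    · exact flip_fit (fitL 0 (by omega))
  have fitP : ∀ i < L.length, Fit ((certOf g L).eP i) := by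
    intro i hi
    cases i with
    | zero => exact flip_fit (fitR _ (by rw [hn]; omega))
    | succ i => exact fitR i (by omega)
  have hroot := roots_sound hg hcol hroots
  refine
    { pos_n := by rw [hn]; omega
      pos_m := by rw [hm]; exact hpar
      colR := fun c hc => (colC_spec hg (hcol c hc)).1
      boxS := fun c hc b hb => ⟨((colC_spec hg (hcol c hc)).2.1 b hb).1,
        ((colC_spec hg (hcol c hc)).2.1 b hb).2.1⟩
      first := ?_
      last := ?_
      chain := fun i hi => (hcond i (by rw [hn] at hi; omega)).2.2.2.2.2 hi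
      vert := ?_
      vert2 := fun c hc j hj => (colC_spec hg (hcol c hc)).2.2.2.1 j hj
      top := ?_
      bot := ?_
      glue := ?_
      rankB := ?_
      rankT := ?_
      rankBo := ?_
      rankP := ?_
      lab0 := fun c hc b hb => ((colC_spec hg (hcol c hc)).2.1 b hb).2.2
      labp := hpl
      tree := htree
      root := hroot.1
      all := hroot.2 }
  · simp only [chkFirst, Bool.and_eq_true, decide_eq_true_eq, ltZ_iff'] at hfirst
    obtain ⟨⟨⟨⟨⟨_, h1⟩, h2⟩, _⟩, _⟩, _⟩ := hfirst
    exact ⟨h1, h2⟩
  · simp only [chkLast, Bool.and_eq_true, decide_eq_true_eq, ltZ_iff'] at hlast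
    obtain ⟨⟨⟨⟨⟨⟨⟨_, h1⟩, h2⟩, _⟩, _⟩, _⟩, _⟩, _⟩ := hlast
    exact ⟨h1, h2⟩
  · intro c hc j hj
    have := (colC_spec hg (hcol c hc)).2.2.1 j hj
    refine ⟨this.1, this.2.1, ?_⟩
    rw [bl_of, bl_of]
    exact this.2.2
  · intro c hc
    have := (colC_spec hg (hcol c hc)).2.2.2.2.2
    rw [hsp', bl_of]
    exact ⟨this.1, this.2.1⟩
  · intro c hc
    have := (colC_spec hg (hcol c hc)).2.2.2.2.1
    rw [hsp', bl_of]
    exact ⟨this.1, this.2.1⟩
  · intro i hi
    rw [hsp']
    exact glue_sound (fitR i hi).1 (fitN i hi).1 (fitR i hi).2.1 (fitR i hi).2.2.1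
      (fitN i hi).2.1 (fitN i hi).2.2.1 (fitR i hi).2.2.2 (fitN i hi).2.2.2 (hcond i hi).2.2.2.1
  · intro i hi
    exact rkCol_sound hg hcol hi (hcond i hi).1.1 (hcond i hi).1.2 rfl rfl rfl rfl
      (fitN i hi).2.2.2 (fitP i hi).2.2.2 (hcond i hi).2.2.2.2.1
  · intro i hi l
    have := (hspec i hi).2.2.2.2.2.2.2
    rw [hsp']
    cases l with
    | false => exact this.1
    | true => exact this.2
  · intro i hi l
    have := (hspec i hi).2.2.2.2.1.2.2
    rw [hsp']
    cases l with
    | false => exact this.1
    | true => exact this.2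
  · simp only [poleF, Bool.and_eq_true, Bool.or_eq_true, nat_beq0, List.any_eq_true,
      nat_blt] at hpole
    have key : ∀ c ∈ L, ∃ i < L.length, (certOf g L).col i = c := by
      intro c hc
      obtain ⟨i, hi, rfl⟩ := List.getElem_of_mem hc
      exact ⟨i, hi, List.getD_eq_getElem _ _ hi⟩
    intro l
    cases l with
    | false =>
      rcases hpole.1 with h | ⟨c, hc, h⟩
      · exact Or.inl h
      · obtain ⟨i, hi, rfl⟩ := key c hc
        exact Or.inr ⟨i, hi, h⟩
    | true =>
      rcases hpole.2 with h | ⟨c, hc, h⟩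
      · exact Or.inl h
      · obtain ⟨i, hi, rfl⟩ := key c hc
        exact Or.inr ⟨i, hi, h⟩

end Oct.N
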